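import Pool.Agent.H27.Skew2

set_option autoImplicit false

namespace Pool.Agent.Results.MP_20d9b9_al.Artin

open Pool.Agent.H27.Skew

theorem result {A R : Type*} [Ring A] [Ring R] (φ : RingAut A) (c : R →+ (ℤ → A))
    (h : IsSkewLaurent φ c) (hR : ∀ r : R, ∃ s, r * s * r = r) :
    IsSemisimpleRing R ∧ IsArtinianRing R ∧ IsArtinianRing Rᵐᵒᵖ :=
  have := h.semi hR
  ⟨this, inferInstance, inferInstance⟩

end Pool.Agent.Results.MP_20d9b9_al.Artin
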